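import Pool.Agent.Helper87.QR.Shift

/-!
# QR block C, row C26
-/

namespace QR

open Filter Topology PowerSeries

theorem sum_le_prod87 {ι : Type*} (s : Finset ι) (x : ι → ℝ) (hx : ∀ i ∈ s, 0 ≤ x i) :
    1 + ∑ i ∈ s, x i / 6 ≤ ∏ i ∈ s, (1 + x i / 6) := by
  classical
  induction s using Finset.induction_on with
  | empty => simp
  | insert a s ha ih =>
    rw [Finset.sum_insert ha, Finset.prod_insert ha]
    have h1 := ih (fun i hi => hx i (Finset.mem_insert_of_mem hi))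
    have h2 := hx a (Finset.mem_insert_self a s)
    have h3 : 0 ≤ ∑ i ∈ s, x i / 6 :=
      Finset.sum_nonneg fun i hi => div_nonneg (hx i (Finset.mem_insert_of_mem hi)) (by norm_num)
    nlinarith [mul_le_mul_of_nonneg_left h1 (by positivity : 0 ≤ 1 + x a / 6), mul_nonneg h2 h3]

theorem aw_shift87 (b : ℤ) (hb : 1 ≤ b) :
    Aw b * (1 + 1 / (b : ℝ) ^ 3 / 6) ≤ Aw (b + 1) := by
  have h : (1 : ℝ) ≤ b := by exact_mod_cast hb
  unfold Aw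
  push_cast
  set x : ℝ := (b : ℝ)
  have hx : 0 < x := by linarith
  have e1 : 2 * x * (x + 3) / ((x + 1) * (x + 2)) * (1 + 1 / x ^ 3 / 6) =
      (2 * (x + 3) * (6 * x ^ 3 + 1)) / (6 * x ^ 2 * ((x + 1) * (x + 2))) := by
    field_simp
  rw [e1, div_le_div_iff₀ (by positivity) (by positivity)]
  have e2 : 2 * (x + 1) * (x + 1 + 3) * (6 * x ^ 2 * ((x + 1) * (x + 2))) -
      2 * (x + 3) * (6 * x ^ 3 + 1) * ((x + 1 + 1) * (x + 1 + 2)) =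
      2 * (x + 2) * (24 * x ^ 2 - (x + 3) ^ 2) := by ring
  have e3 : 0 ≤ 24 * x ^ 2 - (x + 3) ^ 2 := by nlinarith
  have e4 : 0 ≤ 2 * (x + 2) * (24 * x ^ 2 - (x + 3) ^ 2) := by positivity
  linarith

theorem st_C26 (h01 : ST_C01) : ST_C26 := by
  intro P k hP hk
  classical
  have hfin : (Brd P k).Finite := h01.2.1 P k hP
  rw [Kst, finsum_shift87]
  have hmul : 6 * ∑ᶠ b ∈ Brd P k, (∑ i ∈ dn P (fun i => b i + 1), (((b i + 1 : ℤ) : ℝ) + 1) ^ 4) *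
      ∏ i ∈ dn P (fun i => b i + 1), Aw (b i + 1) =
      ∑ᶠ b ∈ Brd P k, 6 * ((∑ i ∈ dn P (fun i => b i + 1), (((b i + 1 : ℤ) : ℝ) + 1) ^ 4) *
      ∏ i ∈ dn P (fun i => b i + 1), Aw (b i + 1)) := by
    rw [finsum_mem_eq_finite_toFinset_sum _ hfin, finsum_mem_eq_finite_toFinset_sum _ hfin,
      Finset.mul_sum]
  rw [hmul, finsum_mem_eq_finite_toFinset_sum _ hfin, finsum_mem_eq_finite_toFinset_sum _ hfin]
  refine Finset.sum_le_sum fun b hb => ?_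
  rw [Set.Finite.mem_toFinset] at hb
  rw [dn_shift87]
  have hpos : ∀ i ∈ dn P b, (1 : ℤ) ≤ b i := fun i hi => by
    have := mem_dn87 P k b hb i hi
    omega
  have hposR : ∀ i ∈ dn P b, (1 : ℝ) ≤ b i := fun i hi => by exact_mod_cast hpos i hi
  have hx : ∀ i ∈ dn P b, 0 ≤ 1 / (b i : ℝ) ^ 3 := fun i hi => by
    have := hposR i hi
    positivity
  have h1 : ∑ i ∈ dn P b, 1 / (b i : ℝ) ^ 3 ≤ 6 * ∏ i ∈ dn P b, (1 + 1 / (b i : ℝ) ^ 3 / 6) := by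
    have := sum_le_prod87 (dn P b) (fun i => 1 / (b i : ℝ) ^ 3) hx
    rw [← Finset.sum_div] at this
    linarith
  have hA : ∀ i ∈ dn P b, 0 ≤ Aw (b i) := fun i hi => by
    have := hposR i hi
    unfold Aw
    positivity
  have h2 : (∏ i ∈ dn P b, (1 + 1 / (b i : ℝ) ^ 3 / 6)) * ∏ i ∈ dn P b, Aw (b i) ≤
      ∏ i ∈ dn P b, Aw (b i + 1) := by
    rw [← Finset.prod_mul_distrib]
    refine Finset.prod_le_prod ?_ ?_
    · intro i hi
      have := hx i hi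
      have := hA i hi
      positivity
    · intro i hi
      have := aw_shift87 (b i) (hpos i hi)
      linarith
  have h3 : ∑ i ∈ dn P b, ((b i : ℝ) + 1) ^ 4 ≤ ∑ i ∈ dn P b, (((b i + 1 : ℤ) : ℝ) + 1) ^ 4 := by
    refine Finset.sum_le_sum fun i hi => ?_
    have := hposR i hi
    push_cast
    exact pow_le_pow_left₀ (by linarith) (by linarith) 4
  have h4 : 0 ≤ ∑ i ∈ dn P b, ((b i : ℝ) + 1) ^ 4 := Finset.sum_nonneg fun i hi => by positivity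
  have h5 : 0 ≤ ∏ i ∈ dn P b, Aw (b i) := Finset.prod_nonneg hA
  have h6 : 0 ≤ ∏ i ∈ dn P b, Aw (b i + 1) := Finset.prod_nonneg fun i hi => by
    have := hposR i hi
    unfold Aw
    push_cast
    positivity
  calc (∑ i ∈ dn P b, 1 / (b i : ℝ) ^ 3) * (∑ i ∈ dn P b, ((b i : ℝ) + 1) ^ 4) * ∏ i ∈ dn P b, Aw (b i)
      ≤ (6 * ∏ i ∈ dn P b, (1 + 1 / (b i : ℝ) ^ 3 / 6)) * (∑ i ∈ dn P b, ((b i : ℝ) + 1) ^ 4) *
        ∏ i ∈ dn P b, Aw (b i) :=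
        mul_le_mul_of_nonneg_right (mul_le_mul_of_nonneg_right h1 h4) h5
    _ = 6 * ((∑ i ∈ dn P b, ((b i : ℝ) + 1) ^ 4) *
        ((∏ i ∈ dn P b, (1 + 1 / (b i : ℝ) ^ 3 / 6)) * ∏ i ∈ dn P b, Aw (b i))) := by ring
    _ ≤ 6 * ((∑ i ∈ dn P b, ((b i : ℝ) + 1) ^ 4) * ∏ i ∈ dn P b, Aw (b i + 1)) :=
        mul_le_mul_of_nonneg_left (mul_le_mul_of_nonneg_left h2 h4) (by norm_num)
    _ ≤ 6 * ((∑ i ∈ dn P b, (((b i + 1 : ℤ) : ℝ) + 1) ^ 4) * ∏ i ∈ dn P b, Aw (b i + 1)) :=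
        mul_le_mul_of_nonneg_left (mul_le_mul_of_nonneg_right h3 h6) (by norm_num)

end QR
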