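import Pool.Agent.Helper98.QR.StmtsC

/-!
# QR block C, row C33
-/

namespace QR

open Filter Topology PowerSeries

theorem aw_nonneg87 (l : ℤ) (hl : 0 ≤ l) : 0 ≤ Aw l := by
  unfold Aw
  have : (0 : ℝ) ≤ l := by exact_mod_cast hl
  positivity

theorem ex_nonneg87 (P h : ℕ) : 0 ≤ ex P h := by
  induction P using Nat.strong_induction_on generalizing h with
  | _ P ih =>
    cases P with
    | zero => rw [ex]; norm_num
    | succ P =>
      rw [ex]
      refine Finset.sum_nonneg fun i _ => ?_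
      have hi := i.2
      have h1 := ih (i : ℕ) (by omega) (h + 1)
      have h2 := ih (P - (i : ℕ)) (by omega) h
      have h3 := aw_nonneg87 ((h : ℤ) + 1) (by omega)
      exact mul_nonneg (mul_nonneg h3 h1) h2

theorem sx_nonneg87 (P h : ℕ) : 0 ≤ sx P h := by
  induction P using Nat.strong_induction_on generalizing h with
  | _ P ih =>
    cases P with
    | zero => rw [sx]
    | succ P =>
      rw [sx]
      refine Finset.sum_nonneg fun i _ => ?_
      have hi := i.2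
      have h1 := ih (i : ℕ) (by omega) (h + 1)
      have h2 := ih (P - (i : ℕ)) (by omega) h
      have h3 := aw_nonneg87 ((h : ℤ) + 1) (by omega)
      have h4 := ex_nonneg87 (i : ℕ) (h + 1)
      have h5 := ex_nonneg87 (P - (i : ℕ)) h
      refine mul_nonneg h3 ?_
      have h6 : 0 ≤ ((h : ℝ) + 2) ^ 4 * ex (i : ℕ) (h + 1) * ex (P - (i : ℕ)) h := by positivity
      have h7 : 0 ≤ sx (i : ℕ) (h + 1) * ex (P - (i : ℕ)) h := mul_nonneg h1 h5
      have h8 : 0 ≤ ex (i : ℕ) (h + 1) * sx (P - (i : ℕ)) h := mul_nonneg h4 h2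
      linarith

theorem st_C33 (h30 : ST_C30) (h32 : ST_C32) : ST_C33 := by
  obtain ⟨K, hK, H⟩ := h32
  refine ⟨12 * K, by positivity, fun h Q hQ => ?_⟩
  have hQ4 : 4 ≤ Q := by nlinarith [Nat.zero_le h]
  have hQ0 : (0 : ℝ) < Q := by
    have : 0 < Q := by omega
    exact_mod_cast this
  set w : ℝ := 1 / Real.sqrt (2 * Q) with hw
  have hs0 : 0 < Real.sqrt (2 * Q) := Real.sqrt_pos.mpr (by positivity)
  have hw0 : 0 < w := by positivity
  have hw2 : w ^ 2 = 1 / (2 * Q) := by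
    rw [hw, div_pow, one_pow, Real.sq_sqrt (by positivity)]
  have hwh : w * (h + 2) ≤ 1 := by
    rw [hw, div_mul_eq_mul_div, one_mul, div_le_one hs0]
    apply Real.le_sqrt_of_sq_le
    have : (((h + 2) ^ 2 : ℕ) : ℝ) ≤ (Q : ℝ) := by exact_mod_cast hQ
    push_cast at this
    linarith
  have hmain := H w (Q + 1) h hw0 hwh
  have hterm : ∀ P ∈ Finset.Icc 1 Q, Kst P (h : ℤ) / (8 ^ P * P) ≤
      4 * (sx P h * ((1 - w ^ 2) / 8) ^ P) := by
    intro P hP
    rw [Finset.mem_Icc] at hP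
    have hP0 : (0 : ℝ) < P := by
      have : 0 < P := by omega
      exact_mod_cast this
    have hPQ : (P : ℝ) ≤ Q := by exact_mod_cast hP.2
    have h1 : Kst P (h : ℤ) ≤ 2 * P * sx P h := h30 P h hP.1
    have h2 : (1 / 2 : ℝ) ≤ (1 - w ^ 2) ^ P := by
      have hb := one_add_mul_le_pow (a := -w ^ 2) (by
        rw [hw2]
        have : 1 / (2 * (Q : ℝ)) ≤ 1 := by
          rw [div_le_one (by positivity)]
          have : (4 : ℝ) ≤ Q := by exact_mod_cast hQ4
          linarith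
        linarith) P
      have h3 : (P : ℝ) * w ^ 2 ≤ 1 / 2 := by
        rw [hw2, mul_one_div, div_le_iff₀ (by positivity)]
        linarith
      have h4 : (1 + -w ^ 2) = 1 - w ^ 2 := by ring
      rw [h4] at hb
      linarith
    have hsx := sx_nonneg87 P h
    have h8 : (0 : ℝ) < 8 ^ P := by positivity
    rw [div_pow, div_le_iff₀ (by positivity)]
    have h5 : 4 * (sx P h * ((1 - w ^ 2) ^ P / 8 ^ P)) * (8 ^ P * P) =
        4 * sx P h * (1 - w ^ 2) ^ P * P := by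
      field_simp
    rw [h5]
    have h6 : sx P h * (1 / 2) ≤ sx P h * (1 - w ^ 2) ^ P := mul_le_mul_of_nonneg_left h2 hsx
    nlinarith [mul_le_mul_of_nonneg_right h6 hP0.le]
  have hsum1 : ∑ P ∈ Finset.Icc 1 Q, Kst P (h : ℤ) / (8 ^ P * P) ≤
      4 * ∑ P ∈ Finset.range (Q + 1), sx P h * ((1 - w ^ 2) / 8) ^ P := by
    refine (Finset.sum_le_sum hterm).trans ?_
    rw [← Finset.mul_sum]
    have h1w : 0 ≤ 1 - w ^ 2 := by
      rw [hw2]
      have : 1 / (2 * (Q : ℝ)) ≤ 1 := by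
        rw [div_le_one (by positivity)]
        have : (4 : ℝ) ≤ Q := by exact_mod_cast hQ4
        linarith
      linarith
    refine mul_le_mul_of_nonneg_left ?_ (by norm_num)
    refine Finset.sum_le_sum_of_subset_of_nonneg ?_ ?_
    · intro x hx
      rw [Finset.mem_Icc] at hx
      rw [Finset.mem_range]
      omega
    · intro P _ _
      exact mul_nonneg (sx_nonneg87 P h) (pow_nonneg (by positivity) _)
  have hw3 : 1 / w ^ 3 ≤ 3 * (Q : ℝ) ^ (3 / 2 : ℝ) := by
    have e1 : 1 / w ^ 3 = 2 * Q * Real.sqrt (2 * Q) := by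
      have : w ^ 3 = w ^ 2 * w := by ring
      rw [this, hw2, hw]
      field_simp
    have e2 : (Q : ℝ) ^ (3 / 2 : ℝ) = Q * Real.sqrt Q := by
      rw [Real.sqrt_eq_rpow, show (3 / 2 : ℝ) = 1 + 1 / 2 by norm_num, Real.rpow_add hQ0, Real.rpow_one]
    rw [e1, e2, Real.sqrt_mul (by norm_num)]
    have e3 : Real.sqrt 2 ≤ 3 / 2 := by
      rw [Real.sqrt_le_left (by norm_num)]
      norm_num
    have e4 := Real.sqrt_nonneg (Q : ℝ)
    nlinarith [mul_nonneg hQ0.le e4, mul_le_mul_of_nonneg_right e3 (mul_nonneg hQ0.le e4)]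
  calc ∑ P ∈ Finset.Icc 1 Q, Kst P (h : ℤ) / (8 ^ P * P)
      ≤ 4 * ∑ P ∈ Finset.range (Q + 1), sx P h * ((1 - w ^ 2) / 8) ^ P := hsum1
    _ ≤ 4 * (K * (h + 2) ^ 2 / w ^ 3) := mul_le_mul_of_nonneg_left hmain (by norm_num)
    _ = 4 * K * (h + 2) ^ 2 * (1 / w ^ 3) := by ring
    _ ≤ 4 * K * (h + 2) ^ 2 * (3 * (Q : ℝ) ^ (3 / 2 : ℝ)) :=
        mul_le_mul_of_nonneg_left hw3 (by positivity)
    _ = 12 * K * (h + 2) ^ 2 * (Q : ℝ) ^ (3 / 2 : ℝ) := by ring

end QR
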