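import Pool.Agent.Helper87.QR.Shift

/-!
# QR block C, row C17
-/

namespace QR

open Filter Topology PowerSeries

theorem ns_zero87 : NS (0 : PowerSeries ℝ) := by
  refine ⟨fun n => by simp, ?_⟩
  simp

theorem ns_one87 : NS (1 : PowerSeries ℝ) := by
  refine ⟨fun n => ?_, ?_⟩
  · rw [coeff_one]
    split_ifs <;> norm_num
  · refine summable_of_ne_finset_zero (s := {0}) fun n hn => ?_
    rw [coeff_one, if_neg]
    simpa using hn

theorem tle_refl87 (a : PowerSeries ℝ) (h : NS a) : TLe a a := ⟨h, h, fun _ => le_rfl⟩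

theorem tle_prod87 (h15 : ST_C15) {ι : Type*} (s : Finset ι) (a b : ι → PowerSeries ℝ)
    (h : ∀ i ∈ s, TLe (a i) (b i)) : TLe (∏ i ∈ s, a i) (∏ i ∈ s, b i) := by
  classical
  induction s using Finset.induction_on with
  | empty =>
    rw [Finset.prod_empty, Finset.prod_empty]
    exact tle_refl87 _ ns_one87
  | insert x s hx ih =>
    rw [Finset.prod_insert hx, Finset.prod_insert hx]
    exact h15.2.1 _ _ _ _ (h x (Finset.mem_insert_self x s))
      (ih fun i hi => h i (Finset.mem_insert_of_mem hi))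

theorem tle_sum87 (h15 : ST_C15) {ι : Type*} (s : Finset ι) (a b : ι → PowerSeries ℝ)
    (h : ∀ i ∈ s, TLe (a i) (b i)) : TLe (∑ i ∈ s, a i) (∑ i ∈ s, b i) := by
  classical
  induction s using Finset.induction_on with
  | empty =>
    rw [Finset.sum_empty, Finset.sum_empty]
    exact tle_refl87 _ ns_zero87
  | insert x s hx ih =>
    rw [Finset.sum_insert hx, Finset.sum_insert hx]
    exact h15.1 _ _ _ _ (h x (Finset.mem_insert_self x s))
      (ih fun i hi => h i (Finset.mem_insert_of_mem hi))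

theorem st_C17 (h01 : ST_C01) (h03 : ST_C03) (h15 : ST_C15) (h16 : ST_C16) : ST_C17 := by
  intro P k hP hk
  have hfin : (Brd P k).Finite := h01.2.1 P k hP
  rw [h03 dg pos P k hP, h03 one pos P (k + 1) hP, finsum_shift87,
    finsum_mem_eq_finite_toFinset_sum _ hfin, finsum_mem_eq_finite_toFinset_sum _ hfin]
  refine tle_sum87 h15 _ _ _ fun b hb => ?_
  rw [Set.Finite.mem_toFinset] at hb
  rw [dn_shift87]
  refine tle_prod87 h15 _ _ _ fun i hi => h16 (b i) ?_
  have := mem_dn87 P k b hb i hi
  omega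

end QR
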