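import Pool.Agent.Helper98.QR.StmtsC

/-!
# QR block C: the shift of closed walks
-/

namespace QR

open Filter Topology PowerSeries

theorem shift_bij87 (P : ℕ) (k : ℤ) :
    Set.BijOn (fun (b : ℤ → ℤ) (i : ℤ) => b i + 1) (Brd P k) (Brd P (k + 1)) := by
  refine ⟨?_, ?_, ?_⟩
  · rintro b ⟨h1, h2, h3, i, h4⟩
    refine ⟨fun i => ?_, fun i => ?_, fun i => ?_, i, ?_⟩
    · rcases h1 i with h | h
      · left; simp only []; omega
      · right; simp only []; omega
    · simp only [h2 i]
    · have := h3 i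
      simp only []; omega
    · simp only []; omega
  · intro b _ b' _ h
    funext i
    have := congrFun h i
    simp only [] at this
    omega
  · rintro b ⟨h1, h2, h3, i, h4⟩
    refine ⟨fun i => b i - 1, ⟨fun i => ?_, fun i => ?_, fun i => ?_, i, ?_⟩, ?_⟩
    · rcases h1 i with h | h
      · left; simp only []; omega
      · right; simp only []; omega
    · simp only [h2 i]
    · have := h3 i
      simp only []; omega
    · simp only []; omega
    · funext i
      simp only []; omega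

theorem dn_shift87 (P : ℕ) (b : ℤ → ℤ) : dn P (fun i => b i + 1) = dn P b := by
  classical
  unfold dn
  ext i
  simp only [Finset.mem_filter]
  constructor
  · rintro ⟨h1, h2⟩
    exact ⟨h1, by omega⟩
  · rintro ⟨h1, h2⟩
    exact ⟨h1, by omega⟩

theorem mem_dn87 (P : ℕ) (k : ℤ) (b : ℤ → ℤ) (hb : b ∈ Brd P k) (i : ℤ) (hi : i ∈ dn P b) :
    k + 1 ≤ b i := by
  classical
  unfold dn at hi
  rw [Finset.mem_filter] at hi
  have := hb.2.2.1 (i + 1)
  omega

theorem finsum_shift87 {M : Type*} [AddCommMonoid M] (P : ℕ) (k : ℤ) (f : (ℤ → ℤ) → M) :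
    ∑ᶠ b ∈ Brd P (k + 1), f b = ∑ᶠ b ∈ Brd P k, f (fun i => b i + 1) :=
  (finsum_mem_eq_of_bijOn (f := fun b : ℤ → ℤ => f (fun i => b i + 1)) (g := f)
    (fun (b : ℤ → ℤ) (i : ℤ) => b i + 1) (shift_bij87 P k) (fun _ _ => rfl)).symm

end QR
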